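import Pool.Agent.Y880.SG.Trans
import Pool.Agent.H732R2.SCG.Graph

/-!
# Strongly regular self-complementary graphs on `4k+1` vertices

Q1 is false, and it fails for almost all even admissible `k` and for at least half of all
admissible `k` (logarithmic density).

If `k` is even and some prime `p ≡ 5 mod 8` divides `4k+1` to an odd power, there is no strongly
regular self-complementary graph on `4k+1` vertices. The numbers `n ≡ 1 mod 8` that are sums of two
squares and avoid this obstruction are rare: for such `n ≤ N / (5w)` and a prime `q ≡ 5 mod 8`,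
`5 < q < w`, the number `5 q n` is a sum of two squares, `≡ 1 mod 8`, and determines `q` (the only
prime `≡ 5 mod 8` other than `5` with odd exponent), so their logarithmic sum is at most
`5 / ∑ 1/q` times that of all sums of two squares `≡ 1 mod 8`, up to a constant. The sums of two
squares `≡ 5 mod 8` are compared with those `≡ 1 mod 8` by Cauchy-Schwarz.
-/

namespace Pool.Agent.Results.MP_9bdacc_co.AlmostAllEven

open Classical in
/-- `G` is strongly regular: it is regular, any two adjacent vertices have the same number `l` of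
common neighbours, and any two distinct non-adjacent vertices have the same number `m` of common
neighbours. -/
def StronglyRegular {n : ℕ} (G : SimpleGraph (Fin n)) : Prop :=
  ∃ d l m : ℕ, G.IsSRGWith n d l m

/-- `G` is isomorphic to its complement. -/
def SelfComplementary {n : ℕ} (G : SimpleGraph (Fin n)) : Prop := Nonempty (G ≃g Gᶜ)

/-- `k ≥ 1` and `4k+1` is a sum of two integer squares. -/
def Admissible (k : ℕ) : Prop := 1 ≤ k ∧ ∃ x y : ℤ, 4 * (k : ℤ) + 1 = x ^ 2 + y ^ 2

/-- there is a strongly regular self-complementary graph on `4k+1` vertices. -/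
def HasGraph (k : ℕ) : Prop :=
  ∃ G : SimpleGraph (Fin (4 * k + 1)), StronglyRegular G ∧ SelfComplementary G

open Classical in
/-- the sum of `1 / k` over the integers `1 ≤ k ≤ K` with `P k`. -/
noncomputable def logSum (K : ℕ) (P : ℕ → Prop) : ℝ :=
  ∑ k ∈ (Finset.Icc 1 K).filter P, (1 : ℝ) / k

theorem obstruction (k p : ℕ) (hk : Even k) (hp : p.Prime) (hp5 : p % 8 = 5)
    (hodd : Odd (padicValNat p (4 * k + 1))) : ¬ HasGraph k := by
  rintro ⟨G, ⟨d, l, m, hG⟩, ⟨e⟩⟩
  classical
  have hG' : G.IsSRGWith (Fintype.card (Fin (4 * k + 1))) d l m := by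
    rw [Fintype.card_fin]
    exact hG
  have h := H732R2.SCG.sc_of_graph G hG' e
  have h8 : Fintype.card (Fin (4 * k + 1)) % 8 = 1 := by
    rw [Fintype.card_fin]
    obtain ⟨j, hj⟩ := hk
    omega
  have h1 := H732R2.SCG.SC.main h h8 hp hp5
  rw [Fintype.card_fin] at h1
  exact (Nat.not_even_iff_odd.2 hodd) h1

/-- Q1 is false; it fails for almost all even admissible `k` and for at least half of all
admissible `k`, in the sense of logarithmic density. -/
theorem result :
    (∀ k p : ℕ, Even k → p.Prime → p % 8 = 5 → Odd (padicValNat p (4 * k + 1)) →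
      ¬ HasGraph k) ∧
    ¬ (∀ k : ℕ, Admissible k → HasGraph k) ∧
    (∀ ε : ℝ, 0 < ε → ∃ K₀ : ℕ, ∀ K : ℕ, K₀ ≤ K →
      logSum K (fun k => Admissible k ∧ Even k ∧ HasGraph k) ≤
        ε * logSum K (fun k => Admissible k ∧ Even k)) ∧
    (∀ ε : ℝ, 0 < ε → ∃ K₀ : ℕ, ∀ K : ℕ, K₀ ≤ K →
      (1 / 2 - ε) * logSum K Admissible ≤ logSum K (fun k => Admissible k ∧ ¬ HasGraph k)) ∧
    (∀ B : ℝ, ∃ K₀ : ℕ, ∀ K : ℕ, K₀ ≤ K → B ≤ logSum K (fun k => Admissible k ∧ Even k)) := by
  refine ⟨obstruction, fun hall => ?_, fun ε hε => ?_, fun ε hε => ?_, fun B => ?_⟩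
  · refine obstruction 16 5 (by decide) (by norm_num) (by norm_num) ?_
      (hall 16 ⟨by norm_num, 1, 8, by norm_num⟩)
    have : Fact (Nat.Prime 5) := ⟨by norm_num⟩
    have h1 : 4 * 16 + 1 = 5 * 13 := by norm_num
    rw [h1, padicValNat.mul (by norm_num) (by norm_num), padicValNat.self (by norm_num),
      padicValNat.eq_zero_of_not_dvd (by norm_num)]
    decide
  · exact Y880.SG.even_rare HasGraph obstruction ε hε
  · exact Y880.SG.all_half HasGraph obstruction ε hε
  · exact Y880.SG.even_unbounded B

end Pool.Agent.Results.MP_9bdacc_co.AlmostAllEven
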